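import Pool.Agent.H81.Sid.Basic

/-!
Asymptotic consequences of the inequality `main_ineq`.
-/

namespace Pool.Agent.H81.Sid

open Finset Real Filter Topology

/-- The mean square over `[w, w ^ (2 - δ)]`. -/
theorem tail {ε δ : ℝ} (hε : 0 < ε) (hδ : 0 < δ) (hδ1 : δ < 1) :
    ∃ w0 : ℕ, 2 ≤ w0 ∧ ∀ w : ℕ, w0 ≤ w → ∀ A : Set ℕ, IsSidon A → ∀ N : ℕ,
      (N : ℝ) ≤ (w : ℝ) ^ (2 - δ) →
      ∑ n ∈ Icc w N, (cnt A n : ℝ) ^ 2 / (n : ℝ) ^ 2 ≤ 4 + ε := by
  -- choose K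
  have hK : ∃ K : ℕ, 1 ≤ K ∧ (1 + 1 / (K : ℝ)) ^ 2 * 4 < 4 + ε := by
    have h1 : Tendsto (fun K : ℕ => (1 + 1 / (K : ℝ)) ^ 2 * 4) atTop (𝓝 ((1 + 0) ^ 2 * 4)) :=
      ((tendsto_const_nhds.add tendsto_one_div_atTop_nhds_zero_nat).pow 2).mul_const 4
    have h2 : ∀ᶠ K : ℕ in atTop, (1 + 1 / (K : ℝ)) ^ 2 * 4 < 4 + ε :=
      h1.eventually_lt_const (by norm_num; exact hε)
    obtain ⟨K, hK1, hK2⟩ := (h2.and (eventually_ge_atTop 1)).exists
    exact ⟨K, hK2, hK1⟩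
  obtain ⟨K, hK1, hK2⟩ := hK
  have hK0 : (0 : ℝ) < K := by exact_mod_cast hK1
  -- choose w0
  have hw : ∀ᶠ w : ℕ in atTop,
      (1 + 1 / (K : ℝ)) ^ 2 * (4 + 16 * K * (w : ℝ) ^ (-(δ / 2))) < 4 + ε := by
    have h1 : Tendsto (fun w : ℕ => (w : ℝ) ^ (-(δ / 2))) atTop (𝓝 0) :=
      (tendsto_rpow_neg_atTop (by positivity)).comp tendsto_natCast_atTop_atTop
    have h2 : Tendsto (fun w : ℕ => (1 + 1 / (K : ℝ)) ^ 2 *
        (4 + 16 * K * (w : ℝ) ^ (-(δ / 2)))) atTop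
        (𝓝 ((1 + 1 / (K : ℝ)) ^ 2 * (4 + 16 * K * 0))) :=
      (tendsto_const_nhds.add (h1.const_mul (16 * (K : ℝ)))).const_mul _
    refine h2.eventually_lt_const ?_
    rw [mul_zero, add_zero]
    exact hK2
  obtain ⟨w1, hw1⟩ := (hw.and (eventually_ge_atTop (max K 2))).exists_forall_of_atTop
  refine ⟨max w1 (max K 2), le_max_of_le_right (le_max_right _ _), ?_⟩
  intro w hww A hA N hN
  have h0 := hw1 w ((le_max_left _ _).trans hww)
  have hwK : K ≤ w := (le_max_left K 2).trans h0.2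
  have hw2 : 2 ≤ w := (le_max_right K 2).trans h0.2
  have hw0 : (0 : ℝ) < w := by exact_mod_cast (by omega : 0 < w)
  have hw1' : (1 : ℝ) ≤ w := by exact_mod_cast (by omega : 1 ≤ w)
  set v : ℕ := w / K with hv
  have hv1 : 1 ≤ v := (Nat.one_le_div_iff (by omega)).2 hwK
  have hvr : (0 : ℝ) < v := by exact_mod_cast hv1
  have hvle : (v : ℝ) ≤ w / K := Nat.cast_div_le
  have hvge : (w : ℝ) / (2 * K) ≤ v := by
    rw [div_le_iff₀ (by positivity)]
    have h1 : w < (v + 1) * K := by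
      rw [hv]
      have := Nat.lt_mul_div_succ w (show 0 < K by omega)
      rw [mul_comm] at this
      exact this
    have h2 : w ≤ v * (2 * K) := by
      have h3 : (v + 1) * K ≤ (2 * v) * K := Nat.mul_le_mul_right _ (by omega)
      have h4 : v * (2 * K) = (2 * v) * K := by ring
      omega
    exact_mod_cast h2
  have hm := main_ineq hA v N hv1
  -- comparison of the sums
  have h1 : ∑ n ∈ Icc w N, (cnt A n : ℝ) ^ 2 / (n : ℝ) ^ 2 ≤
      (1 + 1 / (K : ℝ)) ^ 2 * ∑ n ∈ Icc 1 N, (cnt A n : ℝ) ^ 2 / ((n : ℝ) + v) ^ 2 := by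
    rw [mul_sum]
    calc ∑ n ∈ Icc w N, (cnt A n : ℝ) ^ 2 / (n : ℝ) ^ 2 ≤
        ∑ n ∈ Icc w N, (1 + 1 / (K : ℝ)) ^ 2 * ((cnt A n : ℝ) ^ 2 / ((n : ℝ) + v) ^ 2) := by
          refine sum_le_sum fun n hn => ?_
          rw [mem_Icc] at hn
          have hn0 : (0 : ℝ) < n := by exact_mod_cast (by omega : 0 < n)
          have hwn : (w : ℝ) ≤ n := by exact_mod_cast hn.1
          have h2 : (n : ℝ) + v ≤ (1 + 1 / (K : ℝ)) * n := by
            have : (w : ℝ) / K ≤ n / K := by gcongr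
            calc (n : ℝ) + v ≤ n + n / K := by linarith
              _ = _ := by ring
          have h3 : ((n : ℝ) + v) ^ 2 ≤ (1 + 1 / (K : ℝ)) ^ 2 * (n : ℝ) ^ 2 := by
            rw [← mul_pow]
            exact pow_le_pow_left₀ (by positivity) h2 2
          rw [mul_div_assoc', div_le_div_iff₀ (by positivity) (by positivity)]
          have h4 : (0 : ℝ) ≤ (cnt A n : ℝ) ^ 2 := by positivity
          nlinarith [mul_le_mul_of_nonneg_left h3 h4]
      _ ≤ _ := by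
          refine sum_le_sum_of_subset_of_nonneg ?_ fun _ _ _ => by positivity
          intro n hn
          rw [mem_Icc] at hn ⊢
          omega
  -- the error term
  have h2 : 4 * Real.sqrt (2 * ((N : ℝ) + v)) / v ≤ 16 * K * (w : ℝ) ^ (-(δ / 2)) := by
    have h3 : (v : ℝ) ≤ (w : ℝ) ^ (2 - δ) := by
      have h4 : (v : ℝ) ≤ w := hvle.trans (div_le_self hw0.le (by exact_mod_cast hK1))
      refine h4.trans ?_
      calc (w : ℝ) = (w : ℝ) ^ (1 : ℝ) := (rpow_one _).symm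
        _ ≤ _ := rpow_le_rpow_of_exponent_le hw1' (by linarith)
    have h4 : Real.sqrt (2 * ((N : ℝ) + v)) ≤ 2 * (w : ℝ) ^ (1 - δ / 2) := by
      rw [Real.sqrt_le_left (by positivity)]
      have h5 : (2 * (w : ℝ) ^ (1 - δ / 2)) ^ 2 = 4 * (w : ℝ) ^ (2 - δ) := by
        rw [mul_pow, ← rpow_natCast ((w : ℝ) ^ (1 - δ / 2)) 2, ← rpow_mul hw0.le]
        norm_num
        ring_nf
      rw [h5]
      linarith
    have h5 : (w : ℝ) ^ (1 - δ / 2) = w * (w : ℝ) ^ (-(δ / 2)) := by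
      rw [show (1 - δ / 2) = 1 + (-(δ / 2)) by ring, rpow_add hw0, rpow_one]
    have h6 : (0 : ℝ) < (w : ℝ) ^ (-(δ / 2)) := rpow_pos_of_pos hw0 _
    rw [div_le_iff₀ hvr]
    calc 4 * Real.sqrt (2 * ((N : ℝ) + v)) ≤ 4 * (2 * (w : ℝ) ^ (1 - δ / 2)) := by linarith
      _ = 16 * K * (w : ℝ) ^ (-(δ / 2)) * (w / (2 * K)) := by
          rw [h5]
          field_simp
          ring
      _ ≤ 16 * K * (w : ℝ) ^ (-(δ / 2)) * v := by gcongr
  calc _ ≤ (1 + 1 / (K : ℝ)) ^ 2 * (4 + 16 * K * (w : ℝ) ^ (-(δ / 2))) := by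
        refine h1.trans ?_
        refine mul_le_mul_of_nonneg_left ?_ (by positivity)
        linarith
    _ ≤ 4 + ε := h0.1.le

theorem log_log_step {n : ℕ} (hn : 2 ≤ n) :
    Real.log (Real.log ((n + 1 : ℕ) : ℝ)) - Real.log (Real.log n) ≤ 1 / (n * Real.log n) := by
  have hn0 : (0 : ℝ) < n := by exact_mod_cast (by omega : 0 < n)
  have hn1 : (1 : ℝ) < n := by exact_mod_cast (by omega : 1 < n)
  have hl : 0 < Real.log n := Real.log_pos hn1
  have hl2 : 0 < Real.log ((n + 1 : ℕ) : ℝ) := Real.log_pos (by push_cast; linarith)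
  rw [← Real.log_div hl2.ne' hl.ne']
  refine (Real.log_le_sub_one_of_pos (by positivity)).trans ?_
  have h1 : Real.log ((n + 1 : ℕ) : ℝ) ≤ Real.log n + 1 / n := by
    have h2 : ((n + 1 : ℕ) : ℝ) = n * (1 + 1 / n) := by
      push_cast
      field_simp
    rw [h2, Real.log_mul hn0.ne' (by positivity)]
    have h3 := Real.log_le_sub_one_of_pos (show (0 : ℝ) < 1 + 1 / n by positivity)
    linarith
  rw [sub_le_iff_le_add, div_le_iff₀ hl]
  have h3 : (1 / (n * Real.log n) + 1) * Real.log n = 1 / n + Real.log n := by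
    field_simp
  rw [h3]
  linarith

theorem log_log_sum {w : ℕ} (hw : 2 ≤ w) (N : ℕ) (hN : w ≤ N + 1) :
    Real.log (Real.log ((N + 1 : ℕ) : ℝ)) - Real.log (Real.log w) ≤
      ∑ n ∈ Icc w N, 1 / ((n : ℝ) * Real.log n) := by
  induction N with
  | zero => omega
  | succ N ih =>
    rcases Nat.lt_or_ge (N + 1) w with h | h
    · have : w = N + 1 + 1 := by omega
      subst this
      simp
    · rw [Finset.sum_Icc_succ_top h]
      have h1 := ih h
      have h2 := log_log_step (show 2 ≤ N + 1 by omega)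
      linarith

end Pool.Agent.H81.Sid
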