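import Mathlib

/-!
Windows of an infinite Sidon set and the discrete Hardy inequality.
-/

namespace Pool.Agent.H81.Sid

open Finset

/-- `s(A, n) ≤ 1` for every `n`. -/
def IsSidon (A : Set ℕ) : Prop :=
  ∀ n : ℕ, {p : ℕ × ℕ | p.1 ∈ A ∧ p.2 ∈ A ∧ p.1 ≤ p.2 ∧ p.1 + p.2 = n}.Subsingleton

/-- The counting function `A(n) = #(A ∩ {1, ..., n})`. -/
noncomputable def cnt (A : Set ℕ) (n : ℕ) : ℕ := (A ∩ Set.Icc 1 n).ncard

theorem IsSidon.diff {A : Set ℕ} (hA : IsSidon A) {a b c d : ℕ} (ha : a ∈ A) (hb : b ∈ A)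
    (hc : c ∈ A) (hd : d ∈ A) (hab : a ≠ b) (h : a + d = b + c) : a = c ∧ b = d := by
  -- the pairs {a, d} and {b, c}
  have key := hA (a + d)
  rcases le_total a d with h1 | h1 <;> rcases le_total b c with h2 | h2
  · have := key (show (a, d) ∈ _ from ⟨ha, hd, h1, rfl⟩)
      (show (b, c) ∈ _ from ⟨hb, hc, h2, h.symm⟩)
    simp only [Prod.mk.injEq] at this
    exact absurd this.1 hab
  · have := key (show (a, d) ∈ _ from ⟨ha, hd, h1, rfl⟩)
      (show (c, b) ∈ _ from ⟨hc, hb, h2, by show c + b = a + d; omega⟩)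
    simp only [Prod.mk.injEq] at this
    exact ⟨this.1, this.2.symm⟩
  · have := key (show (d, a) ∈ _ from ⟨hd, ha, h1, by show d + a = a + d; omega⟩)
      (show (b, c) ∈ _ from ⟨hb, hc, h2, h.symm⟩)
    simp only [Prod.mk.injEq] at this
    exact ⟨this.2, this.1.symm⟩
  · have := key (show (d, a) ∈ _ from ⟨hd, ha, h1, by show d + a = a + d; omega⟩)
      (show (c, b) ∈ _ from ⟨hc, hb, h2, by show c + b = a + d; omega⟩)
    simp only [Prod.mk.injEq] at this
    exact absurd this.2 hab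

open Classical in
/-- The elements of `A` in `[1, n]`. -/
noncomputable def el (A : Set ℕ) (n : ℕ) : Finset ℕ := (Icc 1 n).filter (· ∈ A)

theorem mem_el {A : Set ℕ} {n a : ℕ} : a ∈ el A n ↔ (1 ≤ a ∧ a ≤ n) ∧ a ∈ A := by
  simp [el]

theorem cnt_eq (A : Set ℕ) (n : ℕ) : cnt A n = (el A n).card := by
  unfold cnt
  rw [← Set.ncard_coe_finset]
  congr 1
  ext a
  simp only [Set.mem_inter_iff, Set.mem_Icc, Finset.mem_coe, mem_el]
  tauto

theorem cnt_le (A : Set ℕ) (n : ℕ) : cnt A n ≤ n := by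
  rw [cnt_eq]
  have h : el A n ⊆ Icc 1 n := by
    intro a ha
    rw [mem_el] at ha
    rw [mem_Icc]
    exact ha.1
  refine (card_le_card h).trans ?_
  simp

/-- The elements of `A` in the window `(y - w, y]`. -/
noncomputable def win (A : Set ℕ) (w y : ℕ) : Finset ℕ := (el A y).filter (fun a => y < a + w)

theorem mem_win {A : Set ℕ} {w y a : ℕ} :
    a ∈ win A w y ↔ ((1 ≤ a ∧ a ≤ y) ∧ a ∈ A) ∧ y < a + w := by
  simp [win, mem_el]

open Classical in
/-- The pairs `(i, j)`, `i ≠ j`, of numbers in `{0, ..., w - 1}` whose difference `i - j` is a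
difference of two elements of `A`. -/
noncomputable def diffPairs (A : Set ℕ) (w : ℕ) : Finset (ℕ × ℕ) :=
  ((range w).offDiag).filter (fun p => ∃ a ∈ A, ∃ b ∈ A, a + p.2 = b + p.1)

/-- The proportion `θ_A(w)` of the pairs in `{0, ..., w - 1}` whose difference is a nonzero
difference of two elements of `A`. -/
noncomputable def theta (A : Set ℕ) (w : ℕ) : ℝ := ((diffPairs A w).card : ℝ) / (w : ℝ) ^ 2

theorem mem_diffPairs {A : Set ℕ} {w : ℕ} {p : ℕ × ℕ} : p ∈ diffPairs A w ↔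
    (p.1 < w ∧ p.2 < w ∧ p.1 ≠ p.2) ∧ ∃ a ∈ A, ∃ b ∈ A, a + p.2 = b + p.1 := by
  unfold diffPairs
  simp only [mem_filter, mem_offDiag, mem_range]

theorem card_diffPairs_le (A : Set ℕ) (w : ℕ) : (diffPairs A w).card ≤ w * w - w := by
  have h1 : (range w).offDiag.card = w * w - w := by
    rw [offDiag_card, card_range]
  rw [← h1]
  refine card_le_card fun p hp => ?_
  rw [mem_diffPairs] at hp
  rw [mem_offDiag, mem_range, mem_range]
  exact hp.1

/-- The pairs in the windows: the positions in the window determine everything. -/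
theorem sum_offDiag_le {A : Set ℕ} (hA : IsSidon A) (w Y : ℕ) :
    ∑ y ∈ Icc 1 Y, (win A w y).offDiag.card ≤ (diffPairs A w).card := by
  rw [← card_sigma]
  refine card_le_card_of_injOn
    (fun t : (_ : ℕ) × (ℕ × ℕ) => (t.2.1 + w - t.1 - 1, t.2.2 + w - t.1 - 1)) ?_ ?_
  · rintro ⟨y, a, b⟩ ht
    simp only [mem_coe, mem_sigma, mem_offDiag, mem_win] at ht
    obtain ⟨-, ⟨⟨ha1, ha2⟩, ha3⟩, ⟨⟨hb1, hb2⟩, hb3⟩, hab⟩ := ht
    simp only [mem_coe, mem_diffPairs]
    refine ⟨⟨by omega, by omega, by omega⟩, a, ha2, b, hb2, by omega⟩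
  · rintro ⟨y, a, b⟩ ht ⟨z, c, d⟩ hs hts
    simp only [mem_coe, mem_sigma, mem_offDiag, mem_win] at ht hs
    obtain ⟨-, ⟨⟨⟨ha0, ha1⟩, ha2⟩, ha3⟩, ⟨⟨⟨hb0, hb1⟩, hb2⟩, hb3⟩, hab⟩ := ht
    obtain ⟨-, ⟨⟨⟨hc0, hc1⟩, hc2⟩, hc3⟩, ⟨⟨⟨hd0, hd1⟩, hd2⟩, hd3⟩, hcd⟩ := hs
    simp only [Prod.mk.injEq] at hts
    obtain ⟨h1, h2⟩ := hts
    have h3 := hA.diff ha2 hb2 hc2 hd2 hab (by omega)
    obtain ⟨rfl, rfl⟩ := h3
    have : y = z := by omega
    subst this
    rfl

/-- Double counting of the windows. -/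
theorem sum_card_win (A : Set ℕ) (w Y : ℕ) :
    ∑ y ∈ Icc 1 Y, (win A w y).card =
      ∑ a ∈ el A Y, ((Icc 1 Y).filter (fun y => a ≤ y ∧ y < a + w)).card := by
  have h1 : ∀ y ∈ Icc 1 Y, (win A w y).card =
      ∑ a ∈ el A Y, if a ≤ y ∧ y < a + w then 1 else 0 := by
    intro y hy
    rw [mem_Icc] at hy
    rw [← card_filter]
    congr 1
    ext a
    simp only [mem_win, mem_filter, mem_el]
    constructor
    · rintro ⟨⟨⟨h1, h2⟩, h3⟩, h4⟩
      exact ⟨⟨⟨h1, by omega⟩, h3⟩, h2, h4⟩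
    · rintro ⟨⟨⟨h1, h2⟩, h3⟩, h4, h5⟩
      exact ⟨⟨⟨h1, h4⟩, h3⟩, h5⟩
  rw [sum_congr rfl h1, sum_comm]
  refine sum_congr rfl fun a _ => ?_
  rw [card_filter]

theorem sum_card_win_le (A : Set ℕ) (w Y : ℕ) :
    ∑ y ∈ Icc 1 Y, (win A w y).card ≤ w * cnt A Y := by
  rw [sum_card_win, cnt_eq, mul_comm]
  refine (sum_le_card_nsmul _ _ w fun a _ => ?_).trans (le_of_eq (by rw [smul_eq_mul]))
  calc ((Icc 1 Y).filter (fun y => a ≤ y ∧ y < a + w)).card ≤ (Ico a (a + w)).card := by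
        refine card_le_card fun y hy => ?_
        rw [mem_filter] at hy
        rw [mem_Ico]
        exact hy.2
    _ = w := by simp

theorem le_sum_card_win (A : Set ℕ) (w n : ℕ) (hw : 1 ≤ w) :
    w * cnt A n ≤ ∑ y ∈ Icc 1 (n + w - 1), (win A w y).card := by
  rw [sum_card_win, cnt_eq, mul_comm]
  have hsub : el A n ⊆ el A (n + w - 1) := by
    intro a ha
    rw [mem_el] at ha ⊢
    exact ⟨⟨ha.1.1, by omega⟩, ha.2⟩
  refine le_trans ?_ (sum_le_sum_of_subset hsub)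
  rw [← smul_eq_mul]
  refine card_nsmul_le_sum _ _ w fun a ha => ?_
  rw [mem_el] at ha
  calc w = (Ico a (a + w)).card := by simp
    _ ≤ _ := by
        refine card_le_card fun y hy => ?_
        rw [mem_Ico] at hy
        rw [mem_filter, mem_Icc]
        exact ⟨⟨by omega, by omega⟩, hy⟩

theorem sum_sq_win_le {A : Set ℕ} (hA : IsSidon A) (w Y : ℕ) :
    (∑ y ∈ Icc 1 Y, ((win A w y).card : ℝ) ^ 2) ≤ ((diffPairs A w).card : ℝ) + w * cnt A Y := by
  have h1 := sum_offDiag_le hA w Y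
  have h2 := sum_card_win_le A w Y
  have h3 : ∀ y, ((win A w y).card : ℝ) ^ 2 =
      ((win A w y).offDiag.card : ℝ) + (win A w y).card := by
    intro y
    have : (win A w y).card ≤ (win A w y).card * (win A w y).card := Nat.le_mul_self _
    rw [offDiag_card, Nat.cast_sub this]
    push_cast
    ring
  rw [sum_congr rfl fun y _ => h3 y, sum_add_distrib]
  have h4 : (∑ y ∈ Icc 1 Y, ((win A w y).offDiag.card : ℝ)) ≤ ((diffPairs A w).card : ℝ) := by
    exact_mod_cast h1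
  have h5 : (∑ y ∈ Icc 1 Y, ((win A w y).card : ℝ)) ≤ w * cnt A Y := by
    exact_mod_cast h2
  linarith

/-- The trivial bound for a finite Sidon set. -/
theorem cnt_le_sqrt {A : Set ℕ} (hA : IsSidon A) (Y : ℕ) :
    (cnt A Y : ℝ) ≤ Real.sqrt (2 * Y) + 1 := by
  have h1 : (el A Y).offDiag.card ≤ 2 * Y := by
    have h2 : ((Icc (-(Y : ℤ)) Y).erase 0).card = 2 * Y := by
      rw [card_erase_of_mem (by simp), Int.card_Icc]
      omega
    rw [← h2]
    refine card_le_card_of_injOn (fun p : ℕ × ℕ => (p.1 : ℤ) - p.2) ?_ ?_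
    · rintro ⟨a, b⟩ hab
      simp only [mem_coe, mem_offDiag, mem_el] at hab
      obtain ⟨⟨⟨ha1, ha2⟩, ha3⟩, ⟨⟨hb1, hb2⟩, hb3⟩, hne⟩ := hab
      simp only [mem_coe, mem_erase, mem_Icc]
      refine ⟨by omega, by omega, by omega⟩
    · rintro ⟨a, b⟩ hab ⟨c, d⟩ hcd h
      simp only [mem_coe, mem_offDiag, mem_el] at hab hcd
      simp only at h
      have h3 := hA.diff hab.1.2 hab.2.1.2 hcd.1.2 hcd.2.1.2 hab.2.2 (by omega)
      rw [h3.1, h3.2]
  rw [offDiag_card] at h1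
  rw [cnt_eq]
  set c := (el A Y).card with hc
  have h2 : c ≤ c * c := Nat.le_mul_self _
  have h3 : ((c : ℝ) - 1) ^ 2 ≤ 2 * Y ∨ c = 0 := by
    by_cases h0 : c = 0
    · exact Or.inr h0
    left
    have h4 : (c : ℝ) * c - c ≤ 2 * Y := by
      have h5 : ((c * c - c : ℕ) : ℝ) ≤ ((2 * Y : ℕ) : ℝ) := by exact_mod_cast h1
      rw [Nat.cast_sub h2] at h5
      push_cast at h5
      exact h5
    have h5 : (1 : ℝ) ≤ c := by exact_mod_cast Nat.one_le_iff_ne_zero.2 h0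
    nlinarith
  rcases h3 with h3 | h3
  · have h4 := Real.le_sqrt_of_sq_le h3
    linarith
  · rw [h3]
    have := Real.sqrt_nonneg (2 * (Y : ℝ))
    push_cast
    linarith

/-- The discrete Hardy inequality. -/
theorem hardy (d : ℕ → ℝ) (Y : ℕ) :
    ∑ m ∈ Icc 1 Y, ((∑ z ∈ Icc 1 m, d z) / m) ^ 2 ≤ 4 * ∑ m ∈ Icc 1 Y, d m ^ 2 := by
  set F : ℕ → ℝ := fun m => ∑ z ∈ Icc 1 m, d z with hF
  have hFs : ∀ m, F (m + 1) = F m + d (m + 1) := by
    intro m
    simp only [hF]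
    rw [Finset.sum_Icc_succ_top (by omega)]
  have key : ∀ Y : ℕ, ∑ m ∈ Icc 1 Y, ((F m / m) ^ 2 - 2 * (F m / m) * d m) ≤
      -(Y * (F Y / Y) ^ 2) := by
    intro Y
    induction Y with
    | zero => simp
    | succ Y ih =>
      rw [Finset.sum_Icc_succ_top (by omega)]
      have hd : d (Y + 1) = F (Y + 1) - F Y := by rw [hFs]; ring
      set α := F (Y + 1) / ((Y + 1 : ℕ) : ℝ) with hα
      set β := F Y / (Y : ℝ) with hβ
      have hY1 : ((Y + 1 : ℕ) : ℝ) ≠ 0 := by positivity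
      have hF1 : F (Y + 1) = (Y + 1) * α := by
        rw [hα]
        push_cast at hY1 ⊢
        field_simp
      have hF0 : F Y = Y * β := by
        rcases Nat.eq_zero_or_pos Y with h0 | h0
        · subst h0
          simp [hF]
        · have : (Y : ℝ) ≠ 0 := by positivity
          rw [hβ]
          field_simp
      rw [hd, hF1, hF0]
      push_cast
      have hYn : (0 : ℝ) ≤ Y := by positivity
      nlinarith [mul_nonneg hYn (sq_nonneg (α - β))]
  have h1 := key Y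
  have h2 : (0 : ℝ) ≤ Y * (F Y / Y) ^ 2 := by positivity
  have h3 : ∀ m ∈ Icc 1 Y, (1 / 2) * (F m / m) ^ 2 - 2 * d m ^ 2 ≤
      (F m / m) ^ 2 - 2 * (F m / m) * d m := by
    intro m _
    nlinarith [sq_nonneg (F m / m - 2 * d m)]
  have h4 := sum_le_sum h3
  rw [sum_sub_distrib, ← mul_sum, ← mul_sum] at h4
  linarith

/-- The explicit inequality. -/
theorem main_theta {A : Set ℕ} (hA : IsSidon A) (w N : ℕ) (hw : 1 ≤ w) :
    ∑ n ∈ Icc 1 N, (cnt A n : ℝ) ^ 2 / ((n : ℝ) + w) ^ 2 ≤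
      4 * theta A w + 4 * (Real.sqrt (2 * ((N : ℝ) + w)) + 1) / w := by
  set Y := N + w - 1 with hY
  have hw0 : (0 : ℝ) < w := by exact_mod_cast hw
  set d : ℕ → ℝ := fun y => ((win A w y).card : ℝ) with hd
  have h1 := hardy d Y
  have h2 := sum_sq_win_le hA w Y
  have h3 := cnt_le_sqrt hA Y
  -- the left side of Hardy
  have h4 : ∑ n ∈ Icc 1 N, (w : ℝ) ^ 2 * ((cnt A n : ℝ) ^ 2 / ((n : ℝ) + w) ^ 2) ≤
      ∑ m ∈ Icc 1 Y, ((∑ z ∈ Icc 1 m, d z) / m) ^ 2 := by
    have h5 : ∑ n ∈ Icc 1 N, (w : ℝ) ^ 2 * ((cnt A n : ℝ) ^ 2 / ((n : ℝ) + w) ^ 2) ≤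
        ∑ n ∈ Icc 1 N, ((∑ z ∈ Icc 1 (n + (w - 1)), d z) / ((n + (w - 1) : ℕ) : ℝ)) ^ 2 := by
      refine sum_le_sum fun n hn => ?_
      rw [mem_Icc] at hn
      have h6 : (w : ℝ) * cnt A n ≤ ∑ z ∈ Icc 1 (n + (w - 1)), d z := by
        have := le_sum_card_win A w n hw
        rw [show n + w - 1 = n + (w - 1) by omega] at this
        simp only [hd]
        exact_mod_cast this
      have hn0 : (0 : ℝ) < ((n + (w - 1) : ℕ) : ℝ) := by
        have : 0 < n + (w - 1) := by omega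
        exact_mod_cast this
      have h7 : ((n + (w - 1) : ℕ) : ℝ) ≤ (n : ℝ) + w := by
        have : n + (w - 1) ≤ n + w := by omega
        exact_mod_cast this
      have h8 : (w : ℝ) * cnt A n / ((n : ℝ) + w) ≤
          (∑ z ∈ Icc 1 (n + (w - 1)), d z) / ((n + (w - 1) : ℕ) : ℝ) := by
        have h9 : (0 : ℝ) ≤ (w : ℝ) * cnt A n := by positivity
        exact div_le_div₀ (h9.trans h6) h6 hn0 h7
      have h9 : (0 : ℝ) ≤ (w : ℝ) * cnt A n / ((n : ℝ) + w) := by positivity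
      calc (w : ℝ) ^ 2 * ((cnt A n : ℝ) ^ 2 / ((n : ℝ) + w) ^ 2)
          = ((w : ℝ) * cnt A n / ((n : ℝ) + w)) ^ 2 := by
            rw [div_pow, mul_pow, mul_div_assoc]
        _ ≤ _ := pow_le_pow_left₀ h9 h8 2
    refine h5.trans ?_
    rw [← sum_image (f := fun m : ℕ => ((∑ z ∈ Icc 1 m, d z) / (m : ℝ)) ^ 2)
      (g := fun n : ℕ => n + (w - 1)) (by intro a _ b _ h; simpa using h)]
    refine sum_le_sum_of_subset_of_nonneg ?_ fun _ _ _ => sq_nonneg _
    intro m hm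
    rw [mem_image] at hm
    obtain ⟨n, hn, rfl⟩ := hm
    rw [mem_Icc] at hn ⊢
    omega
  rw [← mul_sum] at h4
  have h5 : (Y : ℝ) ≤ (N : ℝ) + w := by
    have : Y ≤ N + w := by omega
    exact_mod_cast this
  have h6 : Real.sqrt (2 * (Y : ℝ)) ≤ Real.sqrt (2 * ((N : ℝ) + w)) :=
    Real.sqrt_le_sqrt (by linarith)
  have h7 : (w : ℝ) * cnt A Y ≤ w * (Real.sqrt (2 * ((N : ℝ) + w)) + 1) :=
    mul_le_mul_of_nonneg_left (by linarith) hw0.le
  have h8 : (w : ℝ) ^ 2 * ∑ n ∈ Icc 1 N, (cnt A n : ℝ) ^ 2 / ((n : ℝ) + w) ^ 2 ≤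
      (w : ℝ) ^ 2 * (4 * theta A w + 4 * (Real.sqrt (2 * ((N : ℝ) + w)) + 1) / w) := by
    have h9 : (w : ℝ) ^ 2 * (4 * theta A w + 4 * (Real.sqrt (2 * ((N : ℝ) + w)) + 1) / w) =
        4 * (((diffPairs A w).card : ℝ) + w * (Real.sqrt (2 * ((N : ℝ) + w)) + 1)) := by
      unfold theta
      field_simp
    rw [h9]
    linarith
  exact le_of_mul_le_mul_left h8 (by positivity)

theorem theta_nonneg (A : Set ℕ) (w : ℕ) : 0 ≤ theta A w := by
  unfold theta
  positivity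

theorem theta_le {A : Set ℕ} {w : ℕ} (hw : 1 ≤ w) : theta A w ≤ 1 - 1 / w := by
  have hw0 : (0 : ℝ) < w := by exact_mod_cast hw
  unfold theta
  rw [div_le_iff₀ (by positivity)]
  have h1 := card_diffPairs_le A w
  have h2 : w ≤ w * w := Nat.le_mul_self _
  have h3 : ((diffPairs A w).card : ℝ) ≤ ((w * w - w : ℕ) : ℝ) := by exact_mod_cast h1
  rw [Nat.cast_sub h2] at h3
  push_cast at h3
  have h4 : (1 - 1 / (w : ℝ)) * (w : ℝ) ^ 2 = w * w - w := by
    field_simp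
  rw [h4]
  exact h3

theorem theta_le_one {A : Set ℕ} {w : ℕ} (hw : 1 ≤ w) : theta A w ≤ 1 := by
  have h1 := theta_le (A := A) hw
  have : (0 : ℝ) ≤ 1 / w := by positivity
  linarith

/-- The inequality without `θ`. -/
theorem main_ineq {A : Set ℕ} (hA : IsSidon A) (w N : ℕ) (hw : 1 ≤ w) :
    ∑ n ∈ Icc 1 N, (cnt A n : ℝ) ^ 2 / ((n : ℝ) + w) ^ 2 ≤
      4 + 4 * Real.sqrt (2 * ((N : ℝ) + w)) / w := by
  have h1 := main_theta hA w N hw
  have h2 := theta_le (A := A) hw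
  have h3 : 4 * (Real.sqrt (2 * ((N : ℝ) + w)) + 1) / w =
      4 * Real.sqrt (2 * ((N : ℝ) + w)) / w + 4 * (1 / w) := by ring
  rw [h3] at h1
  linarith

open Classical in
/-- The number of the differences below `w` controls `θ`. -/
theorem theta_le_count {A : Set ℕ} {w : ℕ} (hw : 1 ≤ w) :
    theta A w ≤ 2 * (((Icc 1 w).filter (fun d => ∃ a ∈ A, ∃ b ∈ A, a = b + d)).card : ℝ) / w := by
  have hw0 : (0 : ℝ) < w := by exact_mod_cast hw
  set D := (Icc 1 w).filter (fun d => ∃ a ∈ A, ∃ b ∈ A, a = b + d) with hD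
  have h1 : (diffPairs A w).card ≤ 2 * D.card * w := by
    have h2 : diffPairs A w ⊆
        (D ×ˢ range w).image (fun t : ℕ × ℕ => (t.2 + t.1, t.2)) ∪
        (D ×ˢ range w).image (fun t : ℕ × ℕ => (t.2, t.2 + t.1)) := by
      rintro ⟨i, j⟩ hp
      rw [mem_diffPairs] at hp
      obtain ⟨⟨hi, hj, hij⟩, a, ha, b, hb, hab⟩ := hp
      simp only at hi hj hij hab
      rw [mem_union, mem_image, mem_image]
      rcases Nat.lt_or_gt_of_ne hij with h | h
      · right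
        refine ⟨(j - i, i), ?_, ?_⟩
        · rw [mem_product, mem_range, hD, mem_filter, mem_Icc]
          exact ⟨⟨⟨by simp only; omega, by simp only; omega⟩, b, hb, a, ha, by simp only; omega⟩,
            hi⟩
        · simp only [Prod.mk.injEq, true_and]
          omega
      · left
        refine ⟨(i - j, j), ?_, ?_⟩
        · rw [mem_product, mem_range, hD, mem_filter, mem_Icc]
          exact ⟨⟨⟨by simp only; omega, by simp only; omega⟩, a, ha, b, hb, by simp only; omega⟩,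
            hj⟩
        · simp only [Prod.mk.injEq, and_true]
          omega
    calc (diffPairs A w).card ≤ _ := card_le_card h2
      _ ≤ _ := card_union_le _ _
      _ ≤ (D ×ˢ range w).card + (D ×ˢ range w).card :=
          Nat.add_le_add card_image_le card_image_le
      _ = 2 * D.card * w := by
          rw [card_product, card_range]
          ring
  unfold theta
  rw [div_le_div_iff₀ (by positivity) hw0]
  have h2 : ((diffPairs A w).card : ℝ) ≤ 2 * D.card * w := by exact_mod_cast h1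
  calc ((diffPairs A w).card : ℝ) * w ≤ (2 * D.card * w) * w :=
        mul_le_mul_of_nonneg_right h2 hw0.le
    _ = _ := by ring

end Pool.Agent.H81.Sid
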