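import Pool.Agent.H81.Sid.Final

/-!
Mean squares: the double logarithmic and the logarithmic form.
-/

namespace Pool.Agent.H81.Sid

open Finset Real Filter Topology

theorem term_le_one (A : Set ℕ) (n : ℕ) : (cnt A n : ℝ) ^ 2 / (n : ℝ) ^ 2 ≤ 1 := by
  have h1 : (cnt A n : ℝ) ≤ n := by exact_mod_cast cnt_le A n
  have h2 : (cnt A n : ℝ) ^ 2 ≤ (n : ℝ) ^ 2 := pow_le_pow_left₀ (by positivity) h1 2
  exact div_le_one_of_le₀ h2 (by positivity)

/-- The bound with `log log`. -/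
theorem loglog_bound {ε δ : ℝ} (hε : 0 < ε) (hδ : 0 < δ) (hδ1 : δ < 1) :
    ∃ B : ℝ, ∀ A : Set ℕ, IsSidon A → ∀ N : ℕ,
      ∑ n ∈ Icc 1 N, (cnt A n : ℝ) ^ 2 / (n : ℝ) ^ 2 ≤
        B + (4 + ε) / Real.log (2 - δ) * Real.log (Real.log N) := by
  obtain ⟨w0, hw0, hw⟩ := tail hε hδ hδ1
  set G : ℕ → ℝ := fun N => (4 + ε) / Real.log (2 - δ) * Real.log (Real.log N) with hG
  set M := max w0 4 with hM
  refine ⟨(M ^ 2 : ℕ) + ∑ N ∈ range (M ^ 2 + 1), |G N|, fun A hA => ?_⟩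
  have hl : 0 < Real.log (2 - δ) := Real.log_pos (by linarith)
  refine recursion hδ hδ1 w0 (fun N => ∑ n ∈ Icc 1 N, (cnt A n : ℝ) ^ 2 / (n : ℝ) ^ 2) G _ ?_ ?_
  · intro N hN
    have h1 : ∑ n ∈ Icc 1 N, (cnt A n : ℝ) ^ 2 / (n : ℝ) ^ 2 ≤ (M ^ 2 : ℕ) := by
      calc ∑ n ∈ Icc 1 N, (cnt A n : ℝ) ^ 2 / (n : ℝ) ^ 2 ≤ ∑ n ∈ Icc 1 N, (1 : ℝ) :=
            sum_le_sum fun n _ => term_le_one A n
        _ = N := by simp
        _ ≤ _ := by exact_mod_cast hN
    have h2 : |G N| ≤ ∑ N ∈ range (M ^ 2 + 1), |G N| :=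
      single_le_sum (f := fun N => |G N|) (fun _ _ => abs_nonneg _)
        (mem_range.2 (Nat.lt_succ_of_le hN))
    have h3 := neg_abs_le (G N)
    show ∑ n ∈ Icc 1 N, (cnt A n : ℝ) ^ 2 / (n : ℝ) ^ 2 ≤ _
    linarith
  · intro v N hMv hvN h1 h2
    have hv4 : 4 ≤ v := (le_max_right w0 4).trans hMv
    have h3 := hw v ((le_max_left _ _).trans hMv) A hA N h1
    have h4 := sum_Icc_split (fun n => (cnt A n : ℝ) ^ 2 / (n : ℝ) ^ 2)
      (show 1 ≤ v by omega) hvN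
    have h5 := log_log_rpow (show 2 ≤ v - 1 by omega) (show (0 : ℝ) < 2 - δ by linarith) h2
    have h6 : (4 + ε) ≤ (4 + ε) / Real.log (2 - δ) *
        (Real.log (Real.log N) - Real.log (Real.log ((v - 1 : ℕ) : ℝ))) := by
      calc 4 + ε = (4 + ε) / Real.log (2 - δ) * Real.log (2 - δ) := by field_simp
        _ ≤ _ := by
          refine mul_le_mul_of_nonneg_left (by linarith) (by positivity)
    simp only [hG]
    linarith

/-- The bound with `log`. -/
theorem log_bound {ε δ : ℝ} (hε : 0 < ε) (hδ : 0 < δ) (hδ1 : δ < 1) :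
    ∃ B : ℝ, ∀ A : Set ℕ, IsSidon A → ∀ N : ℕ,
      ∑ n ∈ Icc 1 N, (cnt A n : ℝ) ^ 2 / (n : ℝ) ^ 2 * Real.log n ≤
        B + (4 + ε) * (2 - δ) / (1 - δ) * Real.log N := by
  obtain ⟨w0, hw0, hw⟩ := tail hε hδ hδ1
  set G : ℕ → ℝ := fun N => (4 + ε) * (2 - δ) / (1 - δ) * Real.log N with hG
  set M := max w0 4 with hM
  have hd1 : 0 < 1 - δ := by linarith
  have hd2 : 0 < 2 - δ := by linarith
  refine ⟨((M ^ 2 : ℕ) : ℝ) * (M ^ 2 : ℕ), fun A hA => ?_⟩
  refine recursion hδ hδ1 w0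
    (fun N => ∑ n ∈ Icc 1 N, (cnt A n : ℝ) ^ 2 / (n : ℝ) ^ 2 * Real.log n) G _ ?_ ?_
  · intro N hN
    have hN' : (N : ℝ) ≤ (M ^ 2 : ℕ) := by exact_mod_cast hN
    have h1 : ∑ n ∈ Icc 1 N, (cnt A n : ℝ) ^ 2 / (n : ℝ) ^ 2 * Real.log n ≤
        ((M ^ 2 : ℕ) : ℝ) * (M ^ 2 : ℕ) := by
      calc ∑ n ∈ Icc 1 N, (cnt A n : ℝ) ^ 2 / (n : ℝ) ^ 2 * Real.log n ≤
            ∑ n ∈ Icc 1 N, (((M ^ 2 : ℕ) : ℝ)) := by
              refine sum_le_sum fun n hn => ?_
              rw [mem_Icc] at hn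
              have hn0 : (0 : ℝ) < n := by exact_mod_cast (by omega : 0 < n)
              have h2 := term_le_one A n
              have h3 : Real.log n ≤ n := Real.log_le_self hn0.le
              have h4 : 0 ≤ Real.log n := Real.log_natCast_nonneg n
              have h5 : (n : ℝ) ≤ N := by exact_mod_cast hn.2
              calc _ ≤ 1 * Real.log n := mul_le_mul_of_nonneg_right h2 h4
                _ ≤ _ := by linarith
        _ = N * (((M ^ 2 : ℕ) : ℝ)) := by simp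
        _ ≤ _ := by gcongr
    have h2 : 0 ≤ G N := by
      have h3 : 0 ≤ Real.log (N : ℝ) := Real.log_natCast_nonneg N
      simp only [hG]
      positivity
    show ∑ n ∈ Icc 1 N, (cnt A n : ℝ) ^ 2 / (n : ℝ) ^ 2 * Real.log n ≤ _
    linarith
  · intro v N hMv hvN h1 h2
    have hv4 : 4 ≤ v := (le_max_right w0 4).trans hMv
    have h3 := hw v ((le_max_left _ _).trans hMv) A hA N h1
    have h4 := sum_Icc_split (fun n => (cnt A n : ℝ) ^ 2 / (n : ℝ) ^ 2 * Real.log n)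
      (show 1 ≤ v by omega) hvN
    have hlN : 0 ≤ Real.log (N : ℝ) := Real.log_natCast_nonneg N
    have h5 : ∑ n ∈ Icc v N, (cnt A n : ℝ) ^ 2 / (n : ℝ) ^ 2 * Real.log n ≤
        (4 + ε) * Real.log N := by
      calc _ ≤ ∑ n ∈ Icc v N, (cnt A n : ℝ) ^ 2 / (n : ℝ) ^ 2 * Real.log N := by
            refine sum_le_sum fun n hn => ?_
            rw [mem_Icc] at hn
            have hn0 : (0 : ℝ) < n := by exact_mod_cast (by omega : 0 < n)
            have h6 : Real.log n ≤ Real.log N :=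
              Real.log_le_log hn0 (by exact_mod_cast hn.2)
            exact mul_le_mul_of_nonneg_left h6 (by positivity)
        _ = (∑ n ∈ Icc v N, (cnt A n : ℝ) ^ 2 / (n : ℝ) ^ 2) * Real.log N := by
            rw [sum_mul]
        _ ≤ _ := mul_le_mul_of_nonneg_right h3 hlN
    have hv0 : (0 : ℝ) < ((v - 1 : ℕ) : ℝ) := by exact_mod_cast (by omega : 0 < v - 1)
    have h6 : (2 - δ) * Real.log ((v - 1 : ℕ) : ℝ) ≤ Real.log N := by
      rw [← Real.log_rpow hv0]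
      exact Real.log_le_log (by positivity) h2
    have h7 : (4 + ε) * Real.log N ≤ (4 + ε) * (2 - δ) / (1 - δ) *
        (Real.log N - Real.log ((v - 1 : ℕ) : ℝ)) := by
      have h8 : (1 - δ) / (2 - δ) * Real.log N ≤
          Real.log N - Real.log ((v - 1 : ℕ) : ℝ) := by
        have h9 : Real.log ((v - 1 : ℕ) : ℝ) ≤ Real.log N / (2 - δ) := by
          rw [le_div_iff₀ hd2]
          linarith
        have h10 : (1 - δ) / (2 - δ) * Real.log N = Real.log N - Real.log N / (2 - δ) := by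
          field_simp
          ring
        rw [h10]
        linarith
      calc (4 + ε) * Real.log N =
          (4 + ε) * (2 - δ) / (1 - δ) * ((1 - δ) / (2 - δ) * Real.log N) := by
            field_simp
        _ ≤ _ := mul_le_mul_of_nonneg_left h8 (by positivity)
    simp only [hG]
    linarith

theorem mean_loglog {ε : ℝ} (hε : 0 < ε) : ∃ N0 : ℕ, ∀ N : ℕ, N0 ≤ N →
    ∀ A : Set ℕ, IsSidon A →
      ∑ n ∈ Icc 1 N, (cnt A n : ℝ) ^ 2 / (n : ℝ) ^ 2 ≤
        (4 / Real.log 2 + ε) * Real.log (Real.log N) := by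
  have hl2 : 0 < Real.log 2 := Real.log_pos (by norm_num)
  have h1 : 4 < (4 / Real.log 2 + ε / 2) * Real.log 2 := by
    have : (4 / Real.log 2 + ε / 2) * Real.log 2 = 4 + ε / 2 * Real.log 2 := by
      field_simp
    rw [this]
    have : 0 < ε / 2 * Real.log 2 := by positivity
    linarith
  obtain ⟨δ, hδ, hδ1, hδ2⟩ := exists_delta h1
  have hl : 0 < Real.log (2 - δ) := Real.log_pos (by linarith)
  obtain ⟨B, hB⟩ := loglog_bound
    (show 0 < (4 / Real.log 2 + ε / 2) * Real.log (2 - δ) - 4 by linarith) hδ hδ1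
  have hll : Tendsto (fun N : ℕ => Real.log (Real.log (N : ℝ))) atTop atTop :=
    Real.tendsto_log_atTop.comp (Real.tendsto_log_atTop.comp tendsto_natCast_atTop_atTop)
  have h2 := hll.eventually_ge_atTop (B / (ε / 2))
  obtain ⟨N0, hN0⟩ := h2.exists_forall_of_atTop
  refine ⟨N0, fun N hN A hA => ?_⟩
  have h3 := hB A hA N
  have h4 := hN0 N hN
  rw [div_le_iff₀ (by positivity)] at h4
  have h5 : (4 + ((4 / Real.log 2 + ε / 2) * Real.log (2 - δ) - 4)) / Real.log (2 - δ) =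
      4 / Real.log 2 + ε / 2 := by
    rw [show (4 + ((4 / Real.log 2 + ε / 2) * Real.log (2 - δ) - 4)) =
      (4 / Real.log 2 + ε / 2) * Real.log (2 - δ) by ring]
    field_simp
  rw [h5] at h3
  calc _ ≤ B + (4 / Real.log 2 + ε / 2) * Real.log (Real.log N) := h3
    _ ≤ Real.log (Real.log N) * (ε / 2) +
        (4 / Real.log 2 + ε / 2) * Real.log (Real.log N) := by linarith
    _ = _ := by ring

theorem mean_log {ε : ℝ} (hε : 0 < ε) : ∃ N0 : ℕ, ∀ N : ℕ, N0 ≤ N →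
    ∀ A : Set ℕ, IsSidon A →
      ∑ n ∈ Icc 1 N, (cnt A n : ℝ) ^ 2 / (n : ℝ) ^ 2 * Real.log n ≤
        (8 + ε) * Real.log N := by
  have h1 : Tendsto (fun δ : ℝ => (4 + ε / 8) * (2 - δ) / (1 - δ)) (𝓝[>] 0)
      (𝓝 ((4 + ε / 8) * (2 - 0) / (1 - 0))) := by
    refine Tendsto.mono_left ?_ nhdsWithin_le_nhds
    refine Tendsto.div ?_ ?_ (by norm_num)
    · exact Tendsto.const_mul _ (continuousAt_const.sub continuousAt_id).tendsto
    · exact (continuousAt_const.sub continuousAt_id).tendsto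
  have h2 : ∀ᶠ δ : ℝ in 𝓝[>] 0, (4 + ε / 8) * (2 - δ) / (1 - δ) < 8 + ε / 2 :=
    h1.eventually_lt_const (by norm_num; linarith)
  have h3 : ∀ᶠ δ : ℝ in 𝓝[>] (0 : ℝ), δ < 1 :=
    nhdsWithin_le_nhds (eventually_lt_nhds zero_lt_one)
  obtain ⟨δ, ⟨hδ2, hδ1⟩, hδ⟩ := ((h2.and h3).and self_mem_nhdsWithin).exists
  replace hδ : 0 < δ := hδ
  obtain ⟨B, hB⟩ := log_bound (show 0 < ε / 8 by positivity) hδ hδ1
  have hll : Tendsto (fun N : ℕ => Real.log (N : ℝ)) atTop atTop :=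
    Real.tendsto_log_atTop.comp tendsto_natCast_atTop_atTop
  obtain ⟨N0, hN0⟩ := (hll.eventually_ge_atTop (B / (ε / 2))).exists_forall_of_atTop
  refine ⟨N0, fun N hN A hA => ?_⟩
  have h4 := hB A hA N
  have h5 := hN0 N hN
  rw [div_le_iff₀ (by positivity)] at h5
  have h6 : 0 ≤ Real.log (N : ℝ) := Real.log_natCast_nonneg N
  have h7 : (4 + ε / 8) * (2 - δ) / (1 - δ) * Real.log N ≤ (8 + ε / 2) * Real.log N :=
    mul_le_mul_of_nonneg_right hδ2.le h6
  calc _ ≤ B + (4 + ε / 8) * (2 - δ) / (1 - δ) * Real.log N := h4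
    _ ≤ Real.log N * (ε / 2) + (8 + ε / 2) * Real.log N := by linarith
    _ = _ := by ring

/-- On the exceptional set the term is large. -/
theorem exceptional {A : Set ℕ} {K : ℝ} (hK : 0 < K) {n : ℕ} (hn : 2 ≤ n)
    (h : K * Real.sqrt (n / Real.log n) ≤ cnt A n) :
    K ^ 2 * (1 / ((n : ℝ) * Real.log n)) ≤ (cnt A n : ℝ) ^ 2 / (n : ℝ) ^ 2 := by
  have hn0 : (0 : ℝ) < n := by exact_mod_cast (by omega : 0 < n)
  have hn1 : (1 : ℝ) < n := by exact_mod_cast (by omega : 1 < n)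
  have hl : 0 < Real.log n := Real.log_pos hn1
  have h4 : (K * Real.sqrt (n / Real.log n)) ^ 2 ≤ (cnt A n : ℝ) ^ 2 :=
    pow_le_pow_left₀ (by positivity) h 2
  rw [mul_pow, Real.sq_sqrt (by positivity)] at h4
  calc K ^ 2 * (1 / ((n : ℝ) * Real.log n)) = K ^ 2 * (n / Real.log n) / (n : ℝ) ^ 2 := by
        field_simp
    _ ≤ _ := by gcongr

open Classical in
theorem density_loglog {ε : ℝ} (hε : 0 < ε) : ∃ N0 : ℕ, ∀ N : ℕ, N0 ≤ N →
    ∀ A : Set ℕ, IsSidon A → ∀ K : ℝ, 0 < K →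
      ∑ n ∈ (Icc 2 N).filter (fun n : ℕ => K * Real.sqrt (n / Real.log n) ≤ cnt A n),
        1 / ((n : ℝ) * Real.log n) ≤
        (4 / Real.log 2 + ε) * Real.log (Real.log N) / K ^ 2 := by
  obtain ⟨N0, hN0⟩ := mean_loglog hε
  refine ⟨N0, fun N hN A hA K hK => ?_⟩
  have h1 := hN0 N hN A hA
  rw [le_div_iff₀ (by positivity), mul_comm, mul_sum]
  refine le_trans ?_ h1
  calc _ ≤ ∑ n ∈ (Icc 2 N).filter (fun n : ℕ => K * Real.sqrt (n / Real.log n) ≤ cnt A n),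
        (cnt A n : ℝ) ^ 2 / (n : ℝ) ^ 2 := by
        refine sum_le_sum fun n hn => ?_
        rw [mem_filter, mem_Icc] at hn
        exact exceptional hK hn.1.1 hn.2
    _ ≤ _ := by
        refine sum_le_sum_of_subset_of_nonneg ?_ fun _ _ _ => by positivity
        intro n hn
        rw [mem_filter, mem_Icc] at hn
        rw [mem_Icc]
        omega

open Classical in
theorem density_log {ε : ℝ} (hε : 0 < ε) : ∃ N0 : ℕ, ∀ N : ℕ, N0 ≤ N →
    ∀ A : Set ℕ, IsSidon A → ∀ K : ℝ, 0 < K →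
      ∑ n ∈ (Icc 2 N).filter (fun n : ℕ => K * Real.sqrt (n / Real.log n) ≤ cnt A n),
        1 / (n : ℝ) ≤ (8 + ε) * Real.log N / K ^ 2 := by
  obtain ⟨N0, hN0⟩ := mean_log hε
  refine ⟨N0, fun N hN A hA K hK => ?_⟩
  have h1 := hN0 N hN A hA
  rw [le_div_iff₀ (by positivity), mul_comm, mul_sum]
  refine le_trans ?_ h1
  calc _ ≤ ∑ n ∈ (Icc 2 N).filter (fun n : ℕ => K * Real.sqrt (n / Real.log n) ≤ cnt A n),
        (cnt A n : ℝ) ^ 2 / (n : ℝ) ^ 2 * Real.log n := by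
        refine sum_le_sum fun n hn => ?_
        rw [mem_filter, mem_Icc] at hn
        have h2 := exceptional hK hn.1.1 hn.2
        have hn0 : (0 : ℝ) < n := by exact_mod_cast (by omega : 0 < n)
        have hn1 : (1 : ℝ) < n := by exact_mod_cast (by omega : 1 < n)
        have hl : 0 < Real.log n := Real.log_pos hn1
        calc K ^ 2 * (1 / (n : ℝ)) = K ^ 2 * (1 / ((n : ℝ) * Real.log n)) * Real.log n := by
              field_simp
          _ ≤ _ := mul_le_mul_of_nonneg_right h2 hl.le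
    _ ≤ _ := by
        refine sum_le_sum_of_subset_of_nonneg ?_ fun n _ _ =>
          mul_nonneg (by positivity) (Real.log_natCast_nonneg n)
        intro n hn
        rw [mem_filter, mem_Icc] at hn
        rw [mem_Icc]
        omega

end Pool.Agent.H81.Sid
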