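import Pool.Agent.H81.Sid.Asym

/-!
The three asymptotic statements.
-/

namespace Pool.Agent.H81.Sid

open Finset Real Filter Topology

/-- There is a good `δ` for the constant `4 / log 2`. -/
theorem exists_delta {c : ℝ} (hc : 4 < c * Real.log 2) :
    ∃ δ : ℝ, 0 < δ ∧ δ < 1 ∧ 4 < c * Real.log (2 - δ) := by
  have h1 : Tendsto (fun δ : ℝ => c * Real.log (2 - δ)) (𝓝[>] 0) (𝓝 (c * Real.log (2 - 0))) := by
    refine Tendsto.mono_left ?_ nhdsWithin_le_nhds
    refine Tendsto.const_mul _ ?_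
    refine ((continuousAt_const.sub continuousAt_id).tendsto).log ?_
    norm_num
  have h2 : ∀ᶠ δ : ℝ in 𝓝[>] 0, 4 < c * Real.log (2 - δ) :=
    h1.eventually_const_lt (by rw [sub_zero]; exact hc)
  have h3 : ∀ᶠ δ : ℝ in 𝓝[>] (0 : ℝ), δ < 1 :=
    nhdsWithin_le_nhds (eventually_lt_nhds zero_lt_one)
  obtain ⟨δ, ⟨h4, h5⟩, h6⟩ := ((h2.and h3).and self_mem_nhdsWithin).exists
  exact ⟨δ, h6, h5, h4⟩

theorem log_log_rpow {w : ℕ} (hw : 2 ≤ w) {e : ℝ} (he : 0 < e) {x : ℝ}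
    (hx : (w : ℝ) ^ e ≤ x) :
    Real.log e + Real.log (Real.log w) ≤ Real.log (Real.log x) := by
  have hw0 : (0 : ℝ) < w := by exact_mod_cast (by omega : 0 < w)
  have hw1 : (1 : ℝ) < w := by exact_mod_cast (by omega : 1 < w)
  have hl : 0 < Real.log w := Real.log_pos hw1
  rw [← Real.log_mul he.ne' hl.ne', ← Real.log_rpow hw0]
  have h1 : (1 : ℝ) < (w : ℝ) ^ e := Real.one_lt_rpow hw1 he
  exact Real.log_le_log (Real.log_pos h1) (Real.log_le_log (by linarith) hx)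

/-- The explicit constant in the theorem of Erdős. -/
theorem liminf_const {ε : ℝ} (hε : 0 < ε) :
    ∃ w0 : ℕ, ∀ w : ℕ, w0 ≤ w → ∀ A : Set ℕ, IsSidon A → ∃ n : ℕ, w ≤ n ∧ n ≤ w ^ 2 ∧
      (cnt A n : ℝ) < (2 / Real.sqrt (Real.log 2) + ε) * Real.sqrt (n / Real.log n) := by
  have hl2 : 0 < Real.log 2 := Real.log_pos (by norm_num)
  set c := 2 / Real.sqrt (Real.log 2) + ε with hc
  have hs : 0 < Real.sqrt (Real.log 2) := Real.sqrt_pos.2 hl2
  have hc0 : 0 < c := by positivity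
  have hc1 : 4 < c ^ 2 * Real.log 2 := by
    have h1 : c * Real.sqrt (Real.log 2) = 2 + ε * Real.sqrt (Real.log 2) := by
      rw [hc]
      field_simp
    have h2 : c ^ 2 * Real.log 2 = (c * Real.sqrt (Real.log 2)) ^ 2 := by
      rw [mul_pow, Real.sq_sqrt hl2.le]
    rw [h2, h1]
    have h3 : 0 < ε * Real.sqrt (Real.log 2) := by positivity
    nlinarith
  obtain ⟨δ, hδ, hδ1, hδ2⟩ := exists_delta hc1
  obtain ⟨w0, hw0, hw⟩ := tail (show 0 < (c ^ 2 * Real.log (2 - δ) - 4) / 2 by linarith) hδ hδ1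
  refine ⟨w0, fun w hww A hA => ?_⟩
  by_contra hcon
  push Not at hcon
  have hw2 : 2 ≤ w := hw0.trans hww
  have hwr : (1 : ℝ) ≤ w := by exact_mod_cast (by omega : 1 ≤ w)
  set N : ℕ := ⌊(w : ℝ) ^ (2 - δ)⌋₊ with hN
  have hNle : (N : ℝ) ≤ (w : ℝ) ^ (2 - δ) := Nat.floor_le (by positivity)
  have hNlt : (w : ℝ) ^ (2 - δ) < ((N + 1 : ℕ) : ℝ) := by
    push_cast
    exact Nat.lt_floor_add_one _
  have hNw2 : N ≤ w ^ 2 := by
    have h1 : (w : ℝ) ^ (2 - δ) ≤ (w : ℝ) ^ (2 : ℕ) := by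
      rw [← rpow_natCast]
      exact rpow_le_rpow_of_exponent_le hwr (by push_cast; linarith)
    exact_mod_cast hNle.trans h1
  have hwN : w ≤ N := by
    rw [hN]
    refine Nat.le_floor ?_
    calc (w : ℝ) = (w : ℝ) ^ (1 : ℝ) := (rpow_one _).symm
      _ ≤ _ := rpow_le_rpow_of_exponent_le hwr (by linarith)
  have h1 := hw w hww A hA N hNle
  have h2 : c ^ 2 * ∑ n ∈ Icc w N, 1 / ((n : ℝ) * Real.log n) ≤
      ∑ n ∈ Icc w N, (cnt A n : ℝ) ^ 2 / (n : ℝ) ^ 2 := by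
    rw [mul_sum]
    refine sum_le_sum fun n hn => ?_
    rw [mem_Icc] at hn
    have hn0 : (0 : ℝ) < n := by exact_mod_cast (by omega : 0 < n)
    have hn1 : (1 : ℝ) < n := by exact_mod_cast (by omega : 1 < n)
    have hl : 0 < Real.log n := Real.log_pos hn1
    have h3 := hcon n hn.1 (hn.2.trans hNw2)
    have h4 : (c * Real.sqrt (n / Real.log n)) ^ 2 ≤ (cnt A n : ℝ) ^ 2 :=
      pow_le_pow_left₀ (by positivity) h3 2
    rw [mul_pow, Real.sq_sqrt (by positivity)] at h4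
    calc c ^ 2 * (1 / ((n : ℝ) * Real.log n)) = c ^ 2 * (n / Real.log n) / (n : ℝ) ^ 2 := by
          field_simp
      _ ≤ _ := by gcongr
  have h3 := log_log_sum hw2 N (by omega)
  have h4 := log_log_rpow hw2 (show (0 : ℝ) < 2 - δ by linarith) hNlt.le
  have h5 : Real.log (2 - δ) ≤ ∑ n ∈ Icc w N, 1 / ((n : ℝ) * Real.log n) := by linarith
  have h6 : c ^ 2 * Real.log (2 - δ) ≤ c ^ 2 * ∑ n ∈ Icc w N, 1 / ((n : ℝ) * Real.log n) :=
    mul_le_mul_of_nonneg_left h5 (by positivity)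
  linarith

/-- The dyadic decomposition in the exponent: a recursion for sums with slowly growing weights. -/
theorem recursion {δ : ℝ} (hδ : 0 < δ) (hδ1 : δ < 1) (w0 : ℕ) (S : ℕ → ℝ) (G : ℕ → ℝ)
    (B : ℝ) (hB : ∀ N : ℕ, N ≤ (max w0 4) ^ 2 → S N ≤ B + G N)
    (hstep : ∀ v N : ℕ, max w0 4 ≤ v → v ≤ N → (N : ℝ) ≤ (v : ℝ) ^ (2 - δ) →
      ((v - 1 : ℕ) : ℝ) ^ (2 - δ) ≤ N → S N - S (v - 1) ≤ G N - G (v - 1)) :
    ∀ N : ℕ, S N ≤ B + G N := by
  intro N
  induction N using Nat.strong_induction_on with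
  | _ N ih =>
    rcases Nat.lt_or_ge ((max w0 4) ^ 2) N with h | h
    swap
    · exact hB N h
    set M := max w0 4 with hM
    have hM4 : 4 ≤ M := le_max_right _ _
    have hN1 : (1 : ℝ) ≤ N := by
      have : 1 ≤ N := by nlinarith
      exact_mod_cast this
    have hN0 : (0 : ℝ) ≤ N := by positivity
    have he : (0 : ℝ) < 2 - δ := by linarith
    set x : ℝ := (N : ℝ) ^ (1 / (2 - δ)) with hx
    have hx0 : 0 ≤ x := by positivity
    have hxe : x ^ (2 - δ) = N := by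
      rw [hx, ← rpow_mul hN0, one_div_mul_cancel he.ne', rpow_one]
    have hxM : (M : ℝ) ≤ x := by
      have h1 : ((M : ℝ) ^ (2 : ℝ)) ≤ N := by
        have : (M : ℝ) ^ (2 : ℕ) ≤ N := by exact_mod_cast h.le
        rw [← rpow_natCast] at this
        exact_mod_cast this
      have hM1 : (1 : ℝ) ≤ M := by exact_mod_cast (by omega : 1 ≤ M)
      have h2 : (M : ℝ) ^ (2 - δ) ≤ x ^ (2 - δ) := by
        rw [hxe]
        exact (rpow_le_rpow_of_exponent_le hM1 (by linarith)).trans h1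
      exact (rpow_le_rpow_iff (by positivity) hx0 he).1 h2
    set v : ℕ := ⌈x⌉₊ with hv
    have hvx : x ≤ v := Nat.le_ceil x
    have hMv : M ≤ v := by exact_mod_cast hxM.trans hvx
    have hvN : v ≤ N := by
      rw [hv]
      refine Nat.ceil_le.2 ?_
      rw [hx]
      calc (N : ℝ) ^ (1 / (2 - δ)) ≤ (N : ℝ) ^ (1 : ℝ) :=
            rpow_le_rpow_of_exponent_le hN1 (by
              rw [div_le_one he]
              linarith)
        _ = N := rpow_one _
    have h1 : (N : ℝ) ≤ (v : ℝ) ^ (2 - δ) := by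
      rw [← hxe]
      exact rpow_le_rpow hx0 hvx he.le
    have h2 : ((v - 1 : ℕ) : ℝ) ^ (2 - δ) ≤ N := by
      rw [← hxe]
      refine rpow_le_rpow (by positivity) ?_ he.le
      have h3 : (v : ℝ) < x + 1 := Nat.ceil_lt_add_one hx0
      rw [Nat.cast_sub (by omega)]
      push_cast
      linarith
    have h3 := hstep v N hMv hvN h1 h2
    have h4 := ih (v - 1) (by omega)
    linarith

theorem sum_Icc_split (f : ℕ → ℝ) {v N : ℕ} (hv : 1 ≤ v) (hvN : v ≤ N) :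
    ∑ n ∈ Icc 1 N, f n = ∑ n ∈ Icc 1 (v - 1), f n + ∑ n ∈ Icc v N, f n := by
  rw [← sum_union]
  · congr 1
    ext n
    simp only [mem_Icc, mem_union]
    omega
  · rw [disjoint_left]
    intro n hn hn2
    rw [mem_Icc] at hn hn2
    omega

end Pool.Agent.H81.Sid
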