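import Pool.Agent.H81.Sid.Density

/-!
The role of the difference set.
-/

namespace Pool.Agent.H81.Sid

open Finset Real Filter Topology

/-- The mean square over `[K w, w ^ (2 - δ)]` and the differences below `w`. -/
theorem tail_theta {ε δ : ℝ} (hε : 0 < ε) (hδ : 0 < δ) (hδ1 : δ < 1) :
    ∃ K w0 : ℕ, 1 ≤ K ∧ 2 ≤ w0 ∧ ∀ w : ℕ, w0 ≤ w → ∀ A : Set ℕ, IsSidon A → ∀ N : ℕ,
      (N : ℝ) ≤ (w : ℝ) ^ (2 - δ) →
      ∑ n ∈ Icc (K * w) N, (cnt A n : ℝ) ^ 2 / (n : ℝ) ^ 2 ≤ 4 * theta A w + ε := by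
  -- choose K
  have hK : ∃ K : ℕ, 1 ≤ K ∧ (1 + 1 / (K : ℝ)) ^ 2 * 4 < 4 + ε / 2 := by
    have h1 : Tendsto (fun K : ℕ => (1 + 1 / (K : ℝ)) ^ 2 * 4) atTop (𝓝 ((1 + 0) ^ 2 * 4)) :=
      ((tendsto_const_nhds.add tendsto_one_div_atTop_nhds_zero_nat).pow 2).mul_const 4
    have h2 : ∀ᶠ K : ℕ in atTop, (1 + 1 / (K : ℝ)) ^ 2 * 4 < 4 + ε / 2 :=
      h1.eventually_lt_const (by norm_num; exact hε)
    obtain ⟨K, hK1, hK2⟩ := (h2.and (eventually_ge_atTop 1)).exists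
    exact ⟨K, hK2, hK1⟩
  obtain ⟨K, hK1, hK2⟩ := hK
  have hK0 : (0 : ℝ) < K := by exact_mod_cast hK1
  -- choose w0
  have hw : ∀ᶠ w : ℕ in atTop,
      (1 + 1 / (K : ℝ)) ^ 2 * (12 * (w : ℝ) ^ (-(δ / 2))) < ε / 2 := by
    have h1 : Tendsto (fun w : ℕ => (w : ℝ) ^ (-(δ / 2))) atTop (𝓝 0) :=
      (tendsto_rpow_neg_atTop (by positivity)).comp tendsto_natCast_atTop_atTop
    have h2 : Tendsto (fun w : ℕ => (1 + 1 / (K : ℝ)) ^ 2 *
        (12 * (w : ℝ) ^ (-(δ / 2)))) atTop (𝓝 ((1 + 1 / (K : ℝ)) ^ 2 * (12 * 0))) :=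
      (h1.const_mul 12).const_mul _
    refine h2.eventually_lt_const ?_
    rw [mul_zero, mul_zero]
    positivity
  obtain ⟨w1, hw1⟩ := (hw.and (eventually_ge_atTop 2)).exists_forall_of_atTop
  refine ⟨K, max w1 2, hK1, le_max_right _ _, ?_⟩
  intro w hww A hA N hN
  have h0 := hw1 w ((le_max_left _ _).trans hww)
  have hw2 : 2 ≤ w := h0.2
  have hw0 : (0 : ℝ) < w := by exact_mod_cast (by omega : 0 < w)
  have hw1' : (1 : ℝ) ≤ w := by exact_mod_cast (by omega : 1 ≤ w)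
  have hm := main_theta hA w N (by omega)
  -- comparison of the sums
  have h1 : ∑ n ∈ Icc (K * w) N, (cnt A n : ℝ) ^ 2 / (n : ℝ) ^ 2 ≤
      (1 + 1 / (K : ℝ)) ^ 2 * ∑ n ∈ Icc 1 N, (cnt A n : ℝ) ^ 2 / ((n : ℝ) + w) ^ 2 := by
    rw [mul_sum]
    have hKw : 1 ≤ K * w := Nat.mul_pos (by omega) (by omega)
    calc ∑ n ∈ Icc (K * w) N, (cnt A n : ℝ) ^ 2 / (n : ℝ) ^ 2 ≤
        ∑ n ∈ Icc (K * w) N,
          (1 + 1 / (K : ℝ)) ^ 2 * ((cnt A n : ℝ) ^ 2 / ((n : ℝ) + w) ^ 2) := by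
          refine sum_le_sum fun n hn => ?_
          rw [mem_Icc] at hn
          have hn0 : (0 : ℝ) < n := by exact_mod_cast (by omega : 0 < n)
          have hwn : (K : ℝ) * w ≤ n := by exact_mod_cast hn.1
          have h2 : (n : ℝ) + w ≤ (1 + 1 / (K : ℝ)) * n := by
            have : (w : ℝ) ≤ n / K := by
              rw [le_div_iff₀ hK0]
              linarith
            calc (n : ℝ) + w ≤ n + n / K := by linarith
              _ = _ := by ring
          have h3 : ((n : ℝ) + w) ^ 2 ≤ (1 + 1 / (K : ℝ)) ^ 2 * (n : ℝ) ^ 2 := by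
            rw [← mul_pow]
            exact pow_le_pow_left₀ (by positivity) h2 2
          rw [mul_div_assoc', div_le_div_iff₀ (by positivity) (by positivity)]
          have h4 : (0 : ℝ) ≤ (cnt A n : ℝ) ^ 2 := by positivity
          nlinarith [mul_le_mul_of_nonneg_left h3 h4]
      _ ≤ _ := by
          refine sum_le_sum_of_subset_of_nonneg ?_ fun _ _ _ => by positivity
          intro n hn
          rw [mem_Icc] at hn ⊢
          omega
  -- the error term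
  have h2 : 4 * (Real.sqrt (2 * ((N : ℝ) + w)) + 1) / w ≤ 12 * (w : ℝ) ^ (-(δ / 2)) := by
    have h3 : (w : ℝ) ≤ (w : ℝ) ^ (2 - δ) := by
      calc (w : ℝ) = (w : ℝ) ^ (1 : ℝ) := (rpow_one _).symm
        _ ≤ _ := rpow_le_rpow_of_exponent_le hw1' (by linarith)
    have h4 : Real.sqrt (2 * ((N : ℝ) + w)) ≤ 2 * (w : ℝ) ^ (1 - δ / 2) := by
      rw [Real.sqrt_le_left (by positivity)]
      have h5 : (2 * (w : ℝ) ^ (1 - δ / 2)) ^ 2 = 4 * (w : ℝ) ^ (2 - δ) := by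
        rw [mul_pow, ← rpow_natCast ((w : ℝ) ^ (1 - δ / 2)) 2, ← rpow_mul hw0.le]
        norm_num
        ring_nf
      rw [h5]
      linarith
    have h5 : (w : ℝ) ^ (1 - δ / 2) = w * (w : ℝ) ^ (-(δ / 2)) := by
      rw [show (1 - δ / 2) = 1 + (-(δ / 2)) by ring, rpow_add hw0, rpow_one]
    have h6 : (1 : ℝ) ≤ (w : ℝ) ^ (1 - δ / 2) := Real.one_le_rpow hw1' (by linarith)
    rw [div_le_iff₀ hw0]
    calc 4 * (Real.sqrt (2 * ((N : ℝ) + w)) + 1) ≤ 12 * (w : ℝ) ^ (1 - δ / 2) := by linarith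
      _ = 12 * (w : ℝ) ^ (-(δ / 2)) * w := by
          rw [h5]
          ring
  have hθ := theta_le_one (A := A) (show 1 ≤ w by omega)
  have hθ0 := theta_nonneg A w
  have h5 : (1 + 1 / (K : ℝ)) ^ 2 * (4 * theta A w) ≤ 4 * theta A w + ε / 2 := by
    have h6 : ((1 + 1 / (K : ℝ)) ^ 2 * 4 - 4) * theta A w ≤ ε / 2 * 1 := by
      refine mul_le_mul (by linarith) hθ hθ0 (by positivity)
    linarith
  calc _ ≤ (1 + 1 / (K : ℝ)) ^ 2 * (4 * theta A w + 12 * (w : ℝ) ^ (-(δ / 2))) := by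
        refine h1.trans ?_
        refine mul_le_mul_of_nonneg_left ?_ (by positivity)
        linarith
    _ = (1 + 1 / (K : ℝ)) ^ 2 * (4 * theta A w) +
        (1 + 1 / (K : ℝ)) ^ 2 * (12 * (w : ℝ) ^ (-(δ / 2))) := by ring
    _ ≤ 4 * theta A w + ε := by linarith [h0.1]

/-- In `[w, w ^ 2]` the set is controlled by its differences below `w`. -/
theorem liminf_theta {ε : ℝ} (hε : 0 < ε) :
    ∃ w0 : ℕ, ∀ w : ℕ, w0 ≤ w → ∀ A : Set ℕ, IsSidon A → ∃ n : ℕ, w ≤ n ∧ n ≤ w ^ 2 ∧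
      (cnt A n : ℝ) ^ 2 < (4 / Real.log 2 * theta A w + ε) * (n / Real.log n) := by
  set l2 := Real.log 2 with hl2d
  have hl2 : 0 < l2 := Real.log_pos (by norm_num)
  set η : ℝ := ε * l2 / (2 * (ε * l2 + 4)) with hη
  have hη0 : 0 < η := by positivity
  have hη2 : η * (ε * l2 + 4) = ε * l2 / 2 := by
    rw [hη]
    field_simp
  have hη1 : η < 1 := by
    rw [hη, div_lt_one (by positivity)]
    have : 0 < ε * l2 := by positivity
    linarith
  set L : ℝ := l2 * (1 - η) with hL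
  have hL0 : 0 < L := mul_pos hl2 (by linarith)
  have hLl : L < l2 := by
    rw [hL]
    nlinarith
  -- choose δ
  obtain ⟨δ, hδ, hδ1, hδ2⟩ : ∃ δ : ℝ, 0 < δ ∧ δ < 1 ∧ L < Real.log (2 - δ) := by
    have h1 : Tendsto (fun δ : ℝ => Real.log (2 - δ)) (𝓝[>] 0) (𝓝 (Real.log (2 - 0))) := by
      refine Tendsto.mono_left ?_ nhdsWithin_le_nhds
      refine ((continuousAt_const.sub continuousAt_id).tendsto).log ?_
      norm_num
    have h2 : ∀ᶠ δ : ℝ in 𝓝[>] 0, L < Real.log (2 - δ) :=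
      h1.eventually_const_lt (by rw [sub_zero]; exact hLl)
    have h3 : ∀ᶠ δ : ℝ in 𝓝[>] (0 : ℝ), δ < 1 :=
      nhdsWithin_le_nhds (eventually_lt_nhds zero_lt_one)
    obtain ⟨δ, ⟨h4, h5⟩, h6⟩ := ((h2.and h3).and self_mem_nhdsWithin).exists
    exact ⟨δ, h6, h5, h4⟩
  obtain ⟨K, w0, hK1, hw0, hw⟩ := tail_theta (show 0 < ε * l2 / 4 by positivity) hδ hδ1
  have hK0 : (0 : ℝ) < K := by exact_mod_cast hK1
  -- further conditions on w
  have hc1 : ∀ᶠ w : ℕ in atTop, (K : ℝ) ≤ (w : ℝ) ^ (1 - δ) := by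
    have : Tendsto (fun w : ℕ => (w : ℝ) ^ (1 - δ)) atTop atTop :=
      (tendsto_rpow_atTop (by linarith)).comp tendsto_natCast_atTop_atTop
    exact this.eventually_ge_atTop _
  have hc2 : ∀ᶠ w : ℕ in atTop,
      Real.log K / (Real.log (2 - δ) - L) ≤ Real.log (w : ℝ) := by
    have : Tendsto (fun w : ℕ => Real.log (w : ℝ)) atTop atTop :=
      Real.tendsto_log_atTop.comp tendsto_natCast_atTop_atTop
    exact this.eventually_ge_atTop _
  obtain ⟨w1, hw1⟩ := (hc1.and hc2).exists_forall_of_atTop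
  refine ⟨max w0 (max w1 K), fun w hww A hA => ?_⟩
  by_contra hcon
  push Not at hcon
  have hww0 : w0 ≤ w := (le_max_left _ _).trans hww
  have hww1 : w1 ≤ w := (le_max_left _ _).trans ((le_max_right _ _).trans hww)
  have hwwK : K ≤ w := (le_max_right _ _).trans ((le_max_right _ _).trans hww)
  obtain ⟨hd1, hd2⟩ := hw1 w hww1
  have hw2 : 2 ≤ w := hw0.trans hww0
  have hwr : (1 : ℝ) ≤ w := by exact_mod_cast (by omega : 1 ≤ w)
  have hw1r : (1 : ℝ) < w := by exact_mod_cast (by omega : 1 < w)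
  have hwp : (0 : ℝ) < w := by linarith
  have hlw : 0 < Real.log w := Real.log_pos hw1r
  set N : ℕ := ⌊(w : ℝ) ^ (2 - δ)⌋₊ with hN
  have hNle : (N : ℝ) ≤ (w : ℝ) ^ (2 - δ) := Nat.floor_le (by positivity)
  have hNlt : (w : ℝ) ^ (2 - δ) < ((N + 1 : ℕ) : ℝ) := by
    push_cast
    exact Nat.lt_floor_add_one _
  have hNw2 : N ≤ w ^ 2 := by
    have h1 : (w : ℝ) ^ (2 - δ) ≤ (w : ℝ) ^ (2 : ℕ) := by
      rw [← rpow_natCast]
      exact rpow_le_rpow_of_exponent_le hwr (by push_cast; linarith)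
    exact_mod_cast hNle.trans h1
  have hwN : K * w ≤ N := by
    rw [hN]
    refine Nat.le_floor ?_
    push_cast
    calc (K : ℝ) * w ≤ (w : ℝ) ^ (1 - δ) * w := mul_le_mul_of_nonneg_right hd1 hwp.le
      _ = (w : ℝ) ^ (2 - δ) := by
        rw [show (2 - δ) = (1 - δ) + 1 by ring, rpow_add hwp, rpow_one]
  have hKw2 : 2 ≤ K * w := by nlinarith
  have h1 := hw w hww0 A hA N hNle
  set c := 4 / l2 * theta A w + ε with hc
  have hθ := theta_le_one (A := A) (show 1 ≤ w by omega)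
  have hθ0 := theta_nonneg A w
  have hc0 : 0 < c := by positivity
  have h2 : c * ∑ n ∈ Icc (K * w) N, 1 / ((n : ℝ) * Real.log n) ≤
      ∑ n ∈ Icc (K * w) N, (cnt A n : ℝ) ^ 2 / (n : ℝ) ^ 2 := by
    rw [mul_sum]
    refine sum_le_sum fun n hn => ?_
    rw [mem_Icc] at hn
    have hwn : w ≤ n := (Nat.le_mul_of_pos_left w (by omega)).trans hn.1
    have hn0 : (0 : ℝ) < n := by exact_mod_cast (by omega : 0 < n)
    have hn1 : (1 : ℝ) < n := by exact_mod_cast (by omega : 1 < n)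
    have hl : 0 < Real.log n := Real.log_pos hn1
    have h4 := hcon n hwn (hn.2.trans hNw2)
    calc c * (1 / ((n : ℝ) * Real.log n)) = c * (n / Real.log n) / (n : ℝ) ^ 2 := by
          field_simp
      _ ≤ _ := by gcongr
  have h3 := log_log_sum hKw2 N (by omega)
  have h4 := log_log_rpow hw2 (show (0 : ℝ) < 2 - δ by linarith) hNlt.le
  -- log log (K w) - log log w is small
  have h5 : Real.log (Real.log ((K * w : ℕ) : ℝ)) ≤
      Real.log (Real.log w) + (Real.log (2 - δ) - L) := by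
    have h6 : Real.log ((K * w : ℕ) : ℝ) = Real.log w * (1 + Real.log K / Real.log w) := by
      push_cast
      rw [Real.log_mul hK0.ne' hwp.ne']
      field_simp
      ring
    have hlK : 0 ≤ Real.log K := Real.log_natCast_nonneg K
    have h7 : 0 < 1 + Real.log K / Real.log w := by positivity
    rw [h6, Real.log_mul hlw.ne' h7.ne']
    have h8 := Real.log_le_sub_one_of_pos h7
    have h9 : Real.log K / Real.log w ≤ Real.log (2 - δ) - L := by
      rw [div_le_iff₀ hlw]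
      rw [div_le_iff₀ (by linarith)] at hd2
      linarith
    linarith
  have h6 : L ≤ ∑ n ∈ Icc (K * w) N, 1 / ((n : ℝ) * Real.log n) := by linarith
  have h7 : c * L ≤ c * ∑ n ∈ Icc (K * w) N, 1 / ((n : ℝ) * Real.log n) :=
    mul_le_mul_of_nonneg_left h6 hc0.le
  have h8 : c * L ≤ 4 * theta A w + ε * l2 / 4 := by linarith
  have h9 : c * L = 4 * theta A w * (1 - η) + ε * l2 * (1 - η) := by
    rw [hc, hL]
    field_simp
  rw [h9] at h8
  have h10 : η * theta A w ≤ η * 1 := mul_le_mul_of_nonneg_left hθ hη0.le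
  have h11 : 0 < ε * l2 := by positivity
  nlinarith

open Classical in
/-- Sidon sets whose difference set has lower density zero. -/
theorem zero_density {A : Set ℕ} (hA : IsSidon A)
    (h : ∀ ε : ℝ, 0 < ε → ∀ w1 : ℕ, ∃ w : ℕ, w1 ≤ w ∧
      (((Icc 1 w).filter (fun d => ∃ a ∈ A, ∃ b ∈ A, a = b + d)).card : ℝ) ≤ ε * w)
    {ε : ℝ} (hε : 0 < ε) (n1 : ℕ) :
    ∃ n : ℕ, n1 ≤ n ∧ (cnt A n : ℝ) < ε * Real.sqrt (n / Real.log n) := by
  have hl2 : 0 < Real.log 2 := Real.log_pos (by norm_num)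
  obtain ⟨w0, hw0⟩ := liminf_theta (show 0 < ε ^ 2 / 2 by positivity)
  obtain ⟨w, hw, hd⟩ := h (ε ^ 2 * Real.log 2 / 16) (by positivity) (max w0 (max n1 2))
  have hww0 : w0 ≤ w := (le_max_left _ _).trans hw
  have hwn1 : n1 ≤ w := (le_max_left _ _).trans ((le_max_right _ _).trans hw)
  have hw2 : 2 ≤ w := (le_max_right _ _).trans ((le_max_right _ _).trans hw)
  have hwp : (0 : ℝ) < w := by exact_mod_cast (by omega : 0 < w)
  obtain ⟨n, hn1, hn2, hn3⟩ := hw0 w hww0 A hA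
  refine ⟨n, hwn1.trans hn1, ?_⟩
  have hnp : (0 : ℝ) < n := by exact_mod_cast (by omega : 0 < n)
  have hn1' : (1 : ℝ) < n := by exact_mod_cast (by omega : 1 < n)
  have hl : 0 < Real.log n := Real.log_pos hn1'
  have h1 := theta_le_count (A := A) (show 1 ≤ w by omega)
  have h2 : theta A w ≤ ε ^ 2 * Real.log 2 / 8 := by
    refine h1.trans ?_
    rw [div_le_iff₀ hwp]
    calc _ ≤ 2 * (ε ^ 2 * Real.log 2 / 16 * w) := by linarith
      _ = _ := by ring
  have h3 : 4 / Real.log 2 * theta A w + ε ^ 2 / 2 ≤ ε ^ 2 := by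
    have h4 : 4 / Real.log 2 * theta A w ≤ 4 / Real.log 2 * (ε ^ 2 * Real.log 2 / 8) :=
      mul_le_mul_of_nonneg_left h2 (by positivity)
    have h5 : 4 / Real.log 2 * (ε ^ 2 * Real.log 2 / 8) = ε ^ 2 / 2 := by
      field_simp
      norm_num
    linarith
  have h4 : (cnt A n : ℝ) ^ 2 < (ε * Real.sqrt (n / Real.log n)) ^ 2 := by
    rw [mul_pow, Real.sq_sqrt (by positivity)]
    refine hn3.trans_le ?_
    exact mul_le_mul_of_nonneg_right h3 (by positivity)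
  exact lt_of_pow_lt_pow_left₀ 2 (by positivity) h4

end Pool.Agent.H81.Sid
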